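import Pool.Agent.L5helper69.SV.Defs
import Mathlib

/-!
# Functions of finite degree on a finitely generated group along the orbits of an endomorphism

`ℤ[Γ] / J m`, where `J m` is the `m`-th power of the augmentation ideal, is a finitely generated abelian
group; the theorem of Cayley and Hamilton for the endomorphism induced by `Φ` gives the recurrence.
-/

set_option autoImplicit false

namespace Pool.Agent.L5helper56.SV

open Pool.Agent.L5helper69.SV

variable {Γ : Type} [Group Γ]

/-- Left translation by `g` on `ℤ[Γ]`. -/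
noncomputable def T (g : Γ) : (Γ →₀ ℤ) →ₗ[ℤ] (Γ →₀ ℤ) := Finsupp.lmapDomain ℤ ℤ fun x => g * x

theorem T_single (g x : Γ) (a : ℤ) : T g (Finsupp.single x a) = Finsupp.single (g * x) a := by
  simp [T]

theorem T_one (y : Γ →₀ ℤ) : T (1 : Γ) y = y := by
  unfold T
  simp [Finsupp.lmapDomain_apply]
  exact Finsupp.mapDomain_id

theorem T_mul (g h : Γ) (y : Γ →₀ ℤ) : T (g * h) y = T g (T h y) := by
  unfold T
  simp only [Finsupp.lmapDomain_apply]
  rw [← Finsupp.mapDomain_comp]
  congr 1
  funext x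
  simp [mul_assoc]

/-- The powers of the augmentation ideal. -/
noncomputable def J (Γ : Type) [Group Γ] : ℕ → Submodule ℤ (Γ →₀ ℤ)
  | 0 => ⊤
  | m + 1 => Submodule.span ℤ {z | ∃ g : Γ, ∃ y ∈ J Γ m, z = T g y - y}

/-- The linear extension of a function. -/
noncomputable def ext {A : Type} [AddCommGroup A] (f : Γ → A) : (Γ →₀ ℤ) →ₗ[ℤ] A :=
  Finsupp.linearCombination ℤ f

theorem ext_single {A : Type} [AddCommGroup A] (f : Γ → A) (x : Γ) :
    ext f (Finsupp.single x 1) = f x := by
  simp [ext]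

theorem ext_diff {A : Type} [AddCommGroup A] (f : Γ → A) (g : Γ) (y : Γ →₀ ℤ) :
    ext (fun x => f (g * x) - f x) y = ext f (T g y - y) := by
  induction y using Finsupp.induction_linear with
  | zero => simp
  | add a b ha hb =>
    rw [map_add, ha, hb, ← map_add, map_add (T g)]
    congr 1
    abel
  | single x a =>
    rw [map_sub, T_single]
    simp [ext, smul_sub]

theorem ext_J {A : Type} [AddCommGroup A] (m : ℕ) : ∀ f : Γ → A, Pl m f → ∀ y ∈ J Γ m, ext f y = 0 := by
  induction m with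
  | zero =>
    intro f hf y _
    induction y using Finsupp.induction_linear with
    | zero => simp
    | add a b ha hb => rw [map_add, ha trivial, hb trivial, add_zero]
    | single x a => simp [ext, hf x]
  | succ m ih =>
    intro f hf y hy
    unfold J at hy
    induction hy using Submodule.span_induction with
    | mem z hz =>
      obtain ⟨g, y, hy, rfl⟩ := hz
      rw [← ext_diff]
      exact ih _ (hf g) y hy
    | zero => simp
    | add a b _ _ ha hb => rw [map_add, ha, hb, add_zero]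
    | smul c a _ ha => rw [map_smul, ha, smul_zero]

/-- The endomorphism of `ℤ[Γ]` induced by `Φ`. -/
noncomputable def phi (Φ : Γ →* Γ) : (Γ →₀ ℤ) →ₗ[ℤ] (Γ →₀ ℤ) := Finsupp.lmapDomain ℤ ℤ Φ

theorem phi_single (Φ : Γ →* Γ) (x : Γ) (a : ℤ) :
    phi Φ (Finsupp.single x a) = Finsupp.single (Φ x) a := by
  simp [phi]

theorem phi_T (Φ : Γ →* Γ) (g : Γ) (y : Γ →₀ ℤ) : phi Φ (T g y) = T (Φ g) (phi Φ y) := by
  unfold phi T
  simp only [Finsupp.lmapDomain_apply]
  rw [← Finsupp.mapDomain_comp, ← Finsupp.mapDomain_comp]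
  congr 1
  funext x
  simp

theorem phi_J (Φ : Γ →* Γ) (m : ℕ) : J Γ m ≤ (J Γ m).comap (phi Φ) := by
  induction m with
  | zero => intro y _; trivial
  | succ m ih =>
    rw [show J Γ (m + 1) = Submodule.span ℤ {z | ∃ g : Γ, ∃ y ∈ J Γ m, z = T g y - y} from rfl]
    rw [Submodule.span_le]
    rintro z ⟨g, y, hy, rfl⟩
    show phi Φ (T g y - y) ∈ Submodule.span ℤ {z | ∃ g : Γ, ∃ y ∈ J Γ m, z = T g y - y}
    rw [map_sub, phi_T]
    exact Submodule.subset_span ⟨Φ g, phi Φ y, ih hy, rfl⟩

theorem exists_fg [Group.FG Γ] (m : ℕ) : ∃ P : Submodule ℤ (Γ →₀ ℤ), P.FG ∧ P ⊔ J Γ m = ⊤ := by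
  classical
  obtain ⟨S, hS, hSf⟩ := Group.fg_iff.1 (inferInstance : Group.FG Γ)
  induction m with
  | zero => exact ⟨⊥, Submodule.fg_bot, by rw [bot_sup_eq]; rfl⟩
  | succ m ih =>
    obtain ⟨P, hP, hPJ⟩ := ih
    let Q : Submodule ℤ (Γ →₀ ℤ) := Submodule.span ℤ {Finsupp.single 1 1} ⊔
      ⨆ s ∈ hSf.toFinset, P.map (T s - LinearMap.id)
    refine ⟨Q, ?_, ?_⟩
    · refine Submodule.FG.sup (Submodule.fg_span_singleton _) ?_
      exact Submodule.fg_biSup _ _ fun s _ => hP.map _
    · -- all `T g y - y` are in the sum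
      have h1 : ∀ s ∈ S, ∀ y : Γ →₀ ℤ, T s y - y ∈ Q ⊔ J Γ (m + 1) := by
        intro s hs y
        have hy : y ∈ P ⊔ J Γ m := by rw [hPJ]; trivial
        obtain ⟨t, ht, j, hj, rfl⟩ := Submodule.mem_sup.1 hy
        have h2 : T s (t + j) - (t + j) = (T s t - t) + (T s j - j) := by
          rw [map_add]; abel
        rw [h2]
        refine Submodule.add_mem _ ?_ ?_
        · refine Submodule.mem_sup_left (Submodule.mem_sup_right ?_)
          refine Submodule.mem_iSup_of_mem s (Submodule.mem_iSup_of_mem (hSf.mem_toFinset.2 hs) ?_)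
          exact ⟨t, ht, by simp⟩
        · exact Submodule.mem_sup_right (Submodule.subset_span ⟨s, j, hj, rfl⟩)
      have h3 : ∀ g : Γ, ∀ y : Γ →₀ ℤ, T g y - y ∈ Q ⊔ J Γ (m + 1) := by
        intro g
        have hg : g ∈ Subgroup.closure S := by rw [hS]; trivial
        induction hg using Subgroup.closure_induction with
        | mem s hs => exact h1 s hs
        | one => intro y; rw [T_one, sub_self]; exact Submodule.zero_mem _
        | mul a b _ _ ha hb =>
          intro y
          have : T (a * b) y - y = (T a (T b y) - T b y) + (T b y - y) := by rw [T_mul]; abel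
          rw [this]
          exact Submodule.add_mem _ (ha _) (hb _)
        | inv a _ ha =>
          intro y
          have h4 : T a (T a⁻¹ y) = y := by rw [← T_mul, mul_inv_cancel, T_one]
          have : T a⁻¹ y - y = - (T a (T a⁻¹ y) - T a⁻¹ y) := by rw [h4]; abel
          rw [this]
          exact Submodule.neg_mem _ (ha _)
      rw [eq_top_iff]
      intro y _
      induction y using Finsupp.induction_linear with
      | zero => exact Submodule.zero_mem _
      | add a b ha hb => exact Submodule.add_mem _ (ha trivial) (hb trivial)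
      | single x a =>
        have h5 : Finsupp.single x a = a • ((T x (Finsupp.single 1 1) - Finsupp.single 1 1) +
            Finsupp.single (1 : Γ) (1 : ℤ)) := by
          rw [T_single, mul_one, sub_add_cancel, Finsupp.smul_single, smul_eq_mul, mul_one]
        rw [h5]
        refine Submodule.smul_mem _ _ (Submodule.add_mem _ (h3 x _) ?_)
        exact Submodule.mem_sup_left (Submodule.mem_sup_left (Submodule.mem_span_singleton_self _))

theorem finite_quot [Group.FG Γ] (m : ℕ) : Module.Finite ℤ ((Γ →₀ ℤ) ⧸ J Γ m) := by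
  obtain ⟨P, hP, hPJ⟩ := exists_fg (Γ := Γ) m
  refine ⟨?_⟩
  have h1 : P.map (J Γ m).mkQ = ⊤ := by
    rw [eq_top_iff]
    intro z _
    obtain ⟨y, rfl⟩ := Submodule.mkQ_surjective (J Γ m) z
    have hy : y ∈ P ⊔ J Γ m := by rw [hPJ]; trivial
    obtain ⟨t, ht, j, hj, rfl⟩ := Submodule.mem_sup.1 hy
    refine ⟨t, ht, ?_⟩
    rw [map_add]
    have : (J Γ m).mkQ j = 0 := by simpa using hj
    rw [this, add_zero]
  rw [← h1]
  exact hP.map _

theorem rec : St_Rec := by
  intro Γ _ _ Φ m
  have := finite_quot (Γ := Γ) m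
  let φ : ((Γ →₀ ℤ) ⧸ J Γ m) →ₗ[ℤ] ((Γ →₀ ℤ) ⧸ J Γ m) := (J Γ m).mapQ (J Γ m) (phi Φ) (phi_J Φ m)
  obtain ⟨χ, hχ, h0⟩ := LinearMap.exists_monic_and_aeval_eq_zero ℤ φ
  refine ⟨χ, hχ, fun A _ f hf x n => ?_⟩
  have hle : J Γ m ≤ LinearMap.ker (ext f) := fun y hy => ext_J m f hf y hy
  let F : ((Γ →₀ ℤ) ⧸ J Γ m) →ₗ[ℤ] A := (J Γ m).liftQ (ext f) hle
  let e : Γ → ((Γ →₀ ℤ) ⧸ J Γ m) := fun y => (J Γ m).mkQ (Finsupp.single y 1)
  have hF : ∀ y, F (e y) = f y := fun y => by
    show (J Γ m).liftQ (ext f) hle ((J Γ m).mkQ _) = _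
    rw [Submodule.mkQ_apply, Submodule.liftQ_apply, ext_single]
  have hφ : ∀ y, φ (e y) = e (Φ y) := fun y => by
    show (J Γ m).mapQ (J Γ m) (phi Φ) (phi_J Φ m) ((J Γ m).mkQ _) = (J Γ m).mkQ _
    rw [Submodule.mkQ_apply, Submodule.mapQ_apply, phi_single]
    rfl
  have hpow : ∀ i y, (φ ^ i) (e y) = e (Φ^[i] y) := by
    intro i
    induction i with
    | zero => intro y; rfl
    | succ i ih =>
      intro y
      rw [pow_succ, Module.End.mul_apply, hφ, ih, Function.iterate_succ_apply]
  have h1 : F ((Polynomial.aeval φ χ) (e (Φ^[n] x))) = 0 := by rw [h0]; simp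
  rw [Polynomial.aeval_eq_sum_range] at h1
  rw [LinearMap.sum_apply, map_sum] at h1
  rw [← h1]
  refine Finset.sum_congr rfl fun i _ => ?_
  rw [LinearMap.smul_apply, map_smul, hpow, hF, ← Function.iterate_add_apply, Nat.add_comm i n]

end Pool.Agent.L5helper56.SV
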